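import Pool.Agent.Helper63.MM.Defs4

/-!
Project MM, block B4, row VG: solutions belong to the class `VG`.
-/

namespace CM.H55

variable {n : ℕ}

/-- `Sol` gives `VG`. -/
theorem vg_of_sol {F V : E n → ℝ} {c K R0 : ℝ} (hF : FOK c K R0 F) (h : Sol F V) : VG V := by
  obtain ⟨M, hM⟩ := h.reg
  refine ⟨?_, h.pos, ⟨M, ?_⟩, ?_, ⟨K, ?_⟩⟩
  · exact hM.1.of_le (by norm_cast)
  · intro x i j
    exact ((hM.2 i j).2 [] (by simp)).1 x
  · intro i j k
    refine ⟨M, 0, fun x => ?_⟩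
    rw [pow_zero, mul_one]
    exact ((hM.2 j k).2 [i] (by simp)).1 x
  · intro x
    rw [h.eq x, add_sub_cancel_left]
    exact (hF.bd.2 [] (by simp)).1 x

end CM.H55
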